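import Pool.Agent.Lib_VM.SMain

/-!
# MP_5582d1_ag: very moving does not imply big

For transcendental `l`, `X = E₁³ × E₂³` with `E₁ : y² = x³ + x² + l`, `E₂ : y² = x³ + 1` has a
three-dimensional subvariety `Y` whose class realises general tangent 3-planes and lies on the
boundary of the effective cone `Eff₃(X)`: a nonzero linear functional on `N₃(X)_ℝ`, given by
intersection numbers, is nonnegative on all subvarieties and vanishes on `Y`.
-/

set_option autoImplicit false

namespace Pool.Agent.Results.MP_5582d1_ag.VeryMovingNotBig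

open Pool.Agent.VM (SW E1 E2 SubVar)
open Pool.Agent.VMS

theorem result : (∃ l : ℂ, Transcendental ℚ l) ∧
    ∀ l : ℂ, Transcendental ℚ l →
      (E1 l).Δ ≠ 0 ∧ (E2.baseChange ℂ).Δ ≠ 0 ∧
      ∃ Y : SubVar l, Realises (cl Y) ∧ cl Y ∈ Eff l ∧ cl Y ∉ interior (Eff l) ∧
        Supported Y := by
  refine ⟨?_, fun l hl => ⟨?_, ?_, SMain.main l hl⟩⟩
  · by_contra hcon
    push Not at hcon
    have hc : (Set.univ : Set ℂ).Countable :=
      (Algebraic.countable ℚ ℂ).mono fun x _ => by
        have := hcon x
        unfold Transcendental at this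
        exact not_not.1 this
    exact not_countable_complex hc
  · have hl0 : l ≠ 0 := by
      rintro rfl
      exact hl isAlgebraic_zero
    have hl1 : 4 + 27 * l ≠ 0 := by
      intro h
      have h1 : l = algebraMap ℚ ℂ (-4 / 27) := by
        have : l = -4 / 27 := by
          field_simp
          linear_combination h
        rw [this]; simp
      exact hl (h1 ▸ isAlgebraic_algebraMap _)
    have e : (E1 l).Δ = -16 * (l * (4 + 27 * l)) := by
      simp only [E1, SW, WeierstrassCurve.Δ, WeierstrassCurve.b₂, WeierstrassCurve.b₄,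
        WeierstrassCurve.b₆, WeierstrassCurve.b₈]
      ring
    rw [e]
    exact mul_ne_zero (by norm_num) (mul_ne_zero hl0 hl1)
  · have e : (E2.baseChange ℂ).Δ = -432 := by
      simp only [E2, SW, WeierstrassCurve.baseChange, WeierstrassCurve.map,
        WeierstrassCurve.Δ, WeierstrassCurve.b₂, WeierstrassCurve.b₄,
        WeierstrassCurve.b₆, WeierstrassCurve.b₈]
      norm_num
    rw [e]
    norm_num

end Pool.Agent.Results.MP_5582d1_ag.VeryMovingNotBig
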